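import Pool.Agent.E8helper88.Final

open Finset

/-!
Unconditional lower bound for the variance of primes in the reduced residue classes modulo `k`,
for almost all individual moduli `k`, simultaneously for all `X ≥ k` and about every centre `y`
(the centre `y = X / φ(k)` gives the variance `G(X,k)` of the problem).
-/

namespace Pool.Agent.Results.MP_5dd4bb_nt.AlmostAllSharpH88

open Classical in
/-- For every `ε > 0` there are `κ > 0` and `K₀` such that for all integers `K ≥ K₀`: for all but
at most `K^(1-κ)` integers `k` in `(K, 2K]`, for every real `X ≥ k` and every real `y`,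
`∑_{A mod k, (A,k)=1} (ψ(X;k,A) - y)² ≥ X (2 log k - log X - ε log X)`. -/
theorem result (ε : ℝ) (hε : 0 < ε) : ∃ κ K₀ : ℝ, 0 < κ ∧ ∀ K : ℕ, K₀ ≤ K →
    (((Ioc K (2 * K)).filter (fun k : ℕ => ∃ X y : ℝ, (k : ℝ) ≤ X ∧
      ∑ A ∈ (range k).filter (fun A => A.Coprime k),
        ((∑ n ∈ (Icc 1 ⌊X⌋₊).filter (fun n => n ≡ A [MOD k]),
          ArithmeticFunction.vonMangoldt n) - y) ^ 2
      < X * (2 * Real.log k - Real.log X - ε * Real.log X))).card : ℝ) ≤
      (K : ℝ) ^ (1 - κ) :=
  Pool.Agent.E8helper88.main ε hε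

end Pool.Agent.Results.MP_5dd4bb_nt.AlmostAllSharpH88
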