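import Pool.Agent.E8helper81.VQ.Lin
import Pool.Agent.E8helper81.VQ.Mean

/-!
# The variance asymptotic forces zero free half planes

Let `0 < κ < 1`. If for every `ε > 0` the variance satisfies `G(X, Q) ≤ X ^ (1 + ε)` for all large `X` and
all `Q` with `X ^ κ < Q ≤ 2 X ^ κ`, then for every `ε > 0` and all large `X`

* `G(X, q) ≤ X ^ (1 + κ + ε) / q` for ALL `q ≤ X ^ κ`,
* `|ψ(X; q, a) - X / φ(q)| ≤ X ^ ((1 + κ) / 2 + ε) / √q` for all `q ≤ X ^ κ` and all `a` prime to `q`,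
* `|∑_{n ≤ X} χ(n) Λ(n)| ≤ X ^ ((1 + κ) / 2 + ε)` for all the characters `χ ≠ χ₀` modulo `q ≤ X ^ κ`,

and no Dirichlet L-function (the Riemann zeta function included) has a zero `s ≠ 1` with
`Re s > (1 + κ) / 2`.

So the conjecture Q1 (only its upper half, and only up to `X ^ ε`, is used) implies a bound for the
variance for all the moduli `q ≤ X ^ (1 / 2)`, the prime number theorem with the error term
`X ^ (3 / 4 + ε) / √q` for all these progressions, the exponent `2 + δ` in Linnik's theorem and the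
absence of zeros with `Re s > 3 / 4`; the upper bound for all `κ > 0` (the range of Hooley's conjecture)
implies the generalized Riemann hypothesis.
-/

set_option autoImplicit false

namespace Pool.Agent.Results.MP_5dd4bb_nt.ForcesQuasiGRHH81

open Finset

/-- `ψ(X; Q, a)`: the sum of `Λ(n)` over the positive integers `n ≤ X` with `n ≡ a` modulo `Q`. -/
noncomputable def psi (X : ℝ) (Q a : ℕ) : ℝ :=
  ∑ n ∈ (Icc 1 ⌊X⌋₊).filter (fun n => n ≡ a [MOD Q]), ArithmeticFunction.vonMangoldt n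

/-- `G(X, Q)`: the sum of `(ψ(X; Q, a) - X / φ(Q))²` over the reduced residue classes `a` modulo `Q`. -/
noncomputable def G (X : ℝ) (Q : ℕ) : ℝ :=
  ∑ a ∈ (range Q).filter (fun a => a.Coprime Q), (psi X Q a - X / (Nat.totient Q : ℝ)) ^ 2

/-- The assertion of Q1: for all `ε, δ > 0` and all large `X`,
`|G(X, Q) - X log Q + C_Q X| ≤ δ X` whenever `X ^ (1 / 2 + ε) < Q < X ^ (1 - ε)`, where
`C_Q = γ + log (2 π) + ∑_{p ∣ Q} log p / (p - 1)`. -/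
def Q1 : Prop := ∀ ε : ℝ, 0 < ε → ∀ δ : ℝ, 0 < δ → ∃ X₀ : ℝ, ∀ X : ℝ, X₀ ≤ X → ∀ Q : ℕ,
  X ^ ((1 : ℝ) / 2 + ε) < (Q : ℝ) → (Q : ℝ) < X ^ (1 - ε) →
    |G X Q - X * (Real.log (Q : ℝ) - (Real.eulerMascheroniConstant + Real.log (2 * Real.pi)
      + ∑ p ∈ Q.primeFactors, Real.log (p : ℝ) / ((p : ℝ) - 1)))| ≤ δ * X

/-- The upper bound `G(X, Q) ≤ X ^ (1 + ε)` for the moduli `X ^ κ < Q ≤ 2 X ^ κ`. -/
def UpperBound (κ : ℝ) : Prop := ∀ ε : ℝ, 0 < ε → ∃ X₀ : ℝ, ∀ X : ℝ, X₀ ≤ X → ∀ Q : ℕ,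
  X ^ κ < (Q : ℝ) → (Q : ℝ) ≤ 2 * X ^ κ → G X Q ≤ X ^ (1 + ε)

/-- The consequences of the upper bound for the moduli near `X ^ κ`: for every `ε > 0`, all large `X`
and ALL `q ≤ X ^ κ`: the variance is at most `X ^ (1 + κ + ε) / q`; every class prime to `q` satisfies
`|ψ(X; q, a) - X / φ(q)| ≤ X ^ ((1 + κ) / 2 + ε) / √q`; every nonprincipal character modulo `q` satisfies
`|∑_{n ≤ X} χ(n) Λ(n)| ≤ X ^ ((1 + κ) / 2 + ε)`; and no Dirichlet L-function has a zero `s ≠ 1` with real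
part larger than `(1 + κ) / 2`. -/
def QuasiGRH (κ : ℝ) : Prop :=
  (∀ ε : ℝ, 0 < ε → ∃ X₀ : ℝ, ∀ X : ℝ, X₀ ≤ X → ∀ q : ℕ, 1 ≤ q → (q : ℝ) ≤ X ^ κ →
    G X q ≤ X ^ (1 + κ + ε) / q) ∧
  (∀ ε : ℝ, 0 < ε → ∃ X₀ : ℝ, ∀ X : ℝ, X₀ ≤ X → ∀ q a : ℕ, 1 ≤ q → (q : ℝ) ≤ X ^ κ →
    a.Coprime q →
    |psi X q a - X / (Nat.totient q : ℝ)| ≤ X ^ ((1 + κ) / 2 + ε) / Real.sqrt q) ∧
  (∀ ε : ℝ, 0 < ε → ∃ X₀ : ℝ, ∀ X : ℝ, X₀ ≤ X → ∀ q : ℕ, 1 ≤ q → (q : ℝ) ≤ X ^ κ →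
    ∀ χ : DirichletCharacter ℂ q, χ ≠ 1 →
      ‖∑ n ∈ Icc 1 ⌊X⌋₊, χ (n : ZMod q) * (ArithmeticFunction.vonMangoldt n : ℂ)‖ ≤
        X ^ ((1 + κ) / 2 + ε)) ∧
  (∀ (q : ℕ) [NeZero q] (χ : DirichletCharacter ℂ q) (s : ℂ), (1 + κ) / 2 < s.re → s ≠ 1 →
    DirichletCharacter.LFunction χ s ≠ 0)

lemma quasi_mono {κ : ℝ} (h1 : 1 / 2 < κ)
    (h : Pool.Agent.E8helper81.VQ.PG κ) (ε : ℝ) (hε : 0 < ε) (hκ : κ ≤ 1 / 2 + ε / 2) :
    ∃ X₀ : ℝ, ∀ X : ℝ, X₀ ≤ X → ∀ q : ℕ, 1 ≤ q → (q : ℝ) ≤ X ^ (1 / 2 : ℝ) →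
      Pool.Agent.E8helper81.VQ.G X q ≤ X ^ (1 + 1 / 2 + ε) / q := by
  obtain ⟨X₀, hX₀⟩ := h (ε / 2) (by linarith)
  refine ⟨max X₀ 1, fun X hX q hq hqX => ?_⟩
  have hX1 : 1 ≤ X := (le_max_right _ _).trans hX
  refine (hX₀ X ((le_max_left _ _).trans hX) q hq (hqX.trans ?_)).trans ?_
  · exact Real.rpow_le_rpow_of_exponent_le hX1 h1.le
  · apply div_le_div_of_nonneg_right _ (Nat.cast_nonneg q)
    exact Real.rpow_le_rpow_of_exponent_le hX1 (by linarith)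

/-- (1) For `0 < κ < 1` the upper bound `G(X, Q) ≤ X ^ (1 + ε)`, `X ^ κ < Q ≤ 2 X ^ κ`, implies
`QuasiGRH κ`. (2) Q1 implies `QuasiGRH (1 / 2)`, in particular no Dirichlet L-function and not the zeta
function has a zero `s ≠ 1` with real part larger than `3 / 4`, and the least prime in every reduced
class modulo every large `q` is at most `q ^ (2 + δ)`. -/
theorem result :
    (∀ κ : ℝ, 0 < κ → κ < 1 → UpperBound κ → QuasiGRH κ) ∧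
    (Q1 → QuasiGRH (1 / 2) ∧
      (∀ s : ℂ, 3 / 4 < s.re → s ≠ 1 → riemannZeta s ≠ 0) ∧
      (∀ δ : ℝ, 0 < δ → ∃ q₀ : ℕ, ∀ q a : ℕ, q₀ ≤ q → a.Coprime q →
        ∃ p : ℕ, p.Prime ∧ (p : ℝ) ≤ (q : ℝ) ^ (2 + δ) ∧ p ≡ a [MOD q])) := by
  refine ⟨fun κ h0 h1 h => ?_, fun h => ?_⟩
  · have hpg := Pool.Agent.E8helper81.VQ.pg_of_ub h0 h1 h
    have hps := Pool.Agent.E8helper81.VQ.ps_of_pg hpg
    exact ⟨hpg, hps, Pool.Agent.E8helper81.VQ.pc_of_pg hpg,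
      Pool.Agent.E8helper81.VQ.zf_of_ps h0 h1 hps⟩
  · have hub : ∀ κ : ℝ, 1 / 2 < κ → κ < 1 → Pool.Agent.E8helper81.VQ.UB κ := by
      intro κ h0 h1
      refine Pool.Agent.E8helper81.VQ.ub_of_conj ?_ h0 h1
      intro ε hε
      obtain ⟨X₀, hX₀⟩ := h ε hε 1 one_pos
      refine ⟨X₀, fun X hX Q hQ1 hQ2 => ?_⟩
      have h2 := hX₀ X hX Q hQ1 hQ2
      rw [one_mul] at h2
      exact h2
    have hpg : Pool.Agent.E8helper81.VQ.PG (1 / 2) := by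
      intro ε hε
      obtain ⟨κ, hκ⟩ : ∃ κ : ℝ, κ = 1 / 2 + min (ε / 2) (1 / 4) := ⟨_, rfl⟩
      have hm1 := min_le_left (ε / 2) (1 / 4 : ℝ)
      have hm2 := min_le_right (ε / 2) (1 / 4 : ℝ)
      have hm0 : 0 < min (ε / 2) (1 / 4 : ℝ) := lt_min (by linarith) (by norm_num)
      exact quasi_mono (κ := κ) (by linarith)
        (Pool.Agent.E8helper81.VQ.pg_of_ub (by linarith) (by linarith)
          (hub κ (by linarith) (by linarith))) ε hε (by linarith)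
    have hps := Pool.Agent.E8helper81.VQ.ps_of_pg hpg
    have hZF := Pool.Agent.E8helper81.VQ.zf_of_ps (by norm_num) (by norm_num) hps
    have hPH : Pool.Agent.E8helper81.VQ.PH := by
      intro ε hε
      obtain ⟨X₀, hX₀⟩ := hps ε hε
      refine ⟨X₀, fun X hX q a hq hqX ha => ?_⟩
      have h2 := hX₀ X hX q a hq hqX ha
      have h3 : ((1 + 1 / 2) / 2 + ε : ℝ) = 3 / 4 + ε := by norm_num
      rwa [h3] at h2
    refine ⟨⟨hpg, hps, Pool.Agent.E8helper81.VQ.pc_of_pg hpg, hZF⟩, ?_,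
      Pool.Agent.E8helper81.VQ.linnik hPH⟩
    intro s hs hs1
    have h2 := hZF 1 1 s (by linarith) hs1
    rwa [DirichletCharacter.LFunction_modOne_eq] at h2

end Pool.Agent.Results.MP_5dd4bb_nt.ForcesQuasiGRHH81
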